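import Pool.Agent.MP_e8e0b6_ag.Z.Defs

/-!
Open sets that are retracts of an affine space over the base.
-/

open AlgebraicGeometry CategoryTheory Limits

namespace Pool.Agent.MP_e8e0b6_ag

/-- An open subset `W` of `X` whose inclusion factors over `S` through affine `N`-space over an
open subset `V` of `S`. -/
structure AffineRetract {X S : Scheme.{0}} (π : X ⟶ S) where
  W : X.Opens
  V : S.Opens
  N : ℕ
  i : W.toScheme ⟶ 𝔸(Fin N; V)
  r : 𝔸(Fin N; V) ⟶ X
  i_r : i ≫ r = W.ι
  r_over : r ≫ π = 𝔸(Fin N; V) ↘ V ≫ V.ι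

end Pool.Agent.MP_e8e0b6_ag
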