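import Pool.Agent.MP_e8e0b6_ag.Z.Main
import Pool.Agent.MP_e8e0b6_ag.E.Defs

-- ======== part 0: formerly Pool.Agent.MP_e8e0b6_ag.E.Contract
section MrgPart0

/-!
A homotopy that is defined away from a hypersurface extends over it after a contraction.
-/

open AlgebraicGeometry CategoryTheory Limits IsLocalRing Polynomial

namespace Pool.Agent.MP_e8e0b6_ag.E

open Z

variable {k D D₁ L : Type} [Field k] [CommRing D] [CommRing D₁] [Field L] {Y S : Scheme.{0}}

theorem exists_scale (r : D →+* L) (μ : D₁ →+* L) (p : D) (W : Subring L) (hW : ∀ a, r a ∈ W)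
    (h : ∀ c, ∃ n, r p ^ n * μ c ∈ W) (g : D₁[X]) : ∃ M, ∀ M', M ≤ M' → ∀ l : D, ∃ w ∈ W,
      eval₂ μ (r (l * p ^ M')) g = μ (g.coeff 0) + r p * w := by
  induction g using Polynomial.induction_on' with
  | add g g' h1 h2 =>
    obtain ⟨M, h1⟩ := h1
    obtain ⟨N, h2⟩ := h2
    refine ⟨max M N, fun M' hM l => ?_⟩
    obtain ⟨w, hw, e⟩ := h1 M' (le_of_max_le_left hM) l
    obtain ⟨w', hw', e'⟩ := h2 M' (le_of_max_le_right hM) l
    exact ⟨w + w', add_mem hw hw', by rw [eval₂_add, e, e', coeff_add, map_add]; ring⟩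
  | monomial i c =>
    obtain ⟨n, hn⟩ := h c
    refine ⟨n + 1, fun M' hM l => ?_⟩
    obtain ⟨m, rfl⟩ := Nat.exists_eq_add_of_le hM
    cases i with
    | zero => exact ⟨0, zero_mem _, by simp⟩
    | succ i =>
      refine ⟨r p ^ n * μ c * r (l * p ^ m * (l * p ^ (n + 1 + m)) ^ i), mul_mem hn (hW _), ?_⟩
      simp only [eval₂_monomial, coeff_monomial, map_mul, map_pow]
      simp only [Nat.add_eq_zero_iff, one_ne_zero, and_false, if_false, map_zero]
      ring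

theorem exists_unit_at_zero {U : Set (PrimeSpectrum D[X])} (hU : IsOpen U)
    (h : ∀ w : PrimeSpectrum D[X], X ∈ w.asIdeal → w ∈ U) :
    ∃ q : D[X], q.coeff 0 = 1 ∧ ∀ w : PrimeSpectrum D[X], q ∉ w.asIdeal → w ∈ U := by
  obtain ⟨I, hI⟩ := (PrimeSpectrum.isClosed_iff_zeroLocus_ideal _).1 hU.isClosed_compl
  have : I ⊔ Ideal.span {X} = ⊤ := by
    by_contra h1
    obtain ⟨m, hm, h2⟩ := Ideal.exists_le_maximal _ h1
    have : (⟨m, hm.isPrime⟩ : PrimeSpectrum D[X]) ∈ Uᶜ := hI ▸ fun a ha => h2 (Ideal.mem_sup_left ha)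
    exact this (h _ (h2 (Ideal.mem_sup_right (Ideal.mem_span_singleton_self _))))
  obtain ⟨q, hq, b, hb, e⟩ := Submodule.mem_sup.1 ((Ideal.eq_top_iff_one _).1 this)
  obtain ⟨b, rfl⟩ := Ideal.mem_span_singleton'.1 hb
  refine ⟨q, by simpa using congrArg (coeff · 0) e, fun w hw => by_contra fun h1 => ?_⟩
  have : w ∈ PrimeSpectrum.zeroLocus (I : Set D[X]) := hI ▸ h1
  exact hw (this hq)

theorem contract_local (g : Y ⟶ Spec (.of k)) [LocallyOfFiniteType g] {r : D →+* L}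
    (hr : Function.Injective r) {ψ : k →+* D} {p : D} (p0 : p ≠ 0) {Φ : Spec (.of D) ⟶ Y}
    {Γ : Spec (.of (Localization.Away p)[X]) ⟶ Y}
    (hΓ : Γ ≫ g = sp (C.comp ((algebraMap D _).comp ψ)))
    (h0 : sp constantCoeff ≫ Γ = sp (algebraMap D _) ≫ Φ) (P : PrimeSpectrum D) :
    ∃ f, f ∉ P.asIdeal ∧ ∃ M, ∀ M', M ≤ M' → ∀ (l : D) (Q : Ideal D) [Q.IsPrime], f ∉ Q → p ∈ Q →
      ∀ θ : (Localization.Away p)[X] →+* L, θ.comp (C.comp (algebraMap D _)) = r →
      θ X = r (l * p ^ M') → ∃ δ : Spec (.of (locS r Q)) ⟶ Y,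
        sp (locS r Q).subtype ≫ δ = sp θ ≫ Γ := by
  obtain ⟨B, _, j, _, φ, h1, -, h3, h4⟩ := exists_piece g (Φ P) ⊤ trivial RingHom.FiniteType
    fun A _ j _ φ h => RingHom.locally_of RingHom.finiteType_respectsIso _
      ((HasRingHomProperty.Spec_iff (P := @LocallyOfFiniteType) (φ := CommRingCat.ofHom φ)).1
        (show LocallyOfFiniteType (sp φ) from h ▸ inferInstance))
  obtain ⟨f, hf, h5⟩ := exists_basic (σ := Φ) (U := j.opensRange) P h1
  refine ⟨f, hf, ?_⟩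
  have f0 : f ≠ 0 := fun e => hf (e ▸ zero_mem _)
  have := hr.isDomain r
  have hu := IsLocalization.Away.algebraMap_isUnit (S := Localization.Away (f * p)) (f * p)
  rw [map_mul] at hu
  obtain ⟨m, hm⟩ := exists_away p (algebraMap D (Localization.Away (f * p)))
    (isUnit_of_mul_isUnit_right hu)
  obtain ⟨m', hm'⟩ := exists_away f (algebraMap D (Localization.Away (f * p)))
    (isUnit_of_mul_isUnit_left hu)
  have h6 : sp constantCoeff ≫ sp (mapRingHom m) ≫ Γ = sp (algebraMap D _) ≫ Φ := by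
    rw [← hm, ← sp_comp_assoc, ← h0, sp_comp_assoc, sp_comp_assoc]
    congr 2
    ext <;> simp
  obtain ⟨q, hq, h7⟩ := exists_unit_at_zero
    ((sp (mapRingHom m) ≫ Γ) ⁻¹ᵁ j.opensRange).2 fun w hw => by
      obtain ⟨w, rfl⟩ : w ∈ Set.range (PrimeSpectrum.comap constantCoeff) := by
        rw [range_comap_of_surjective _ _ fun a => ⟨C a, by simp⟩]
        intro a ha
        obtain ⟨b, rfl⟩ := X_dvd_iff.2 (show a.coeff 0 = 0 from ha)
        exact Ideal.mul_mem_right _ _ hw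
      change (sp constantCoeff ≫ sp (mapRingHom m) ≫ Γ) w ∈ j.opensRange
      rw [h6]
      exact mem_of_unit h5 (isUnit_of_mul_isUnit_left hu) w
  have lift : ∀ {T : Type} [CommRing T] (s : Spec (.of T) ⟶ Y), (∀ w, s w ∈ j.opensRange) →
      ∃ ρ : B →+* T, sp ρ ≫ j = s := fun s hs => by
    obtain ⟨ρ, hρ⟩ := sp_surj (IsOpenImmersion.lift j s (by rintro _ ⟨w, rfl⟩; exact hs w))
    exact ⟨ρ, by rw [hρ, IsOpenImmersion.lift_fac]⟩
  obtain ⟨ρ, hρ⟩ := lift _ (mem_of_unit (σ := sp (mapRingHom m) ≫ Γ) h7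
    (IsLocalization.Away.algebraMap_isUnit (S := Localization.Away q) q))
  obtain ⟨ρ₀, hρ₀⟩ := lift _ (mem_of_unit h5
    (IsLocalization.Away.algebraMap_isUnit (S := Localization.Away f) f))
  obtain ⟨ev, hev⟩ := exists_away q constantCoeff (by simp [hq])
  have h8 : ev.comp ρ = m'.comp ρ₀ := sp_cancel j (by
    rw [← sp_comp_assoc, ← sp_comp_assoc, hρ, hρ₀, sp_comp_assoc, hev, h6, sp_comp_assoc, hm'])
  have h9 : ρ.comp φ = (algebraMap (Localization.Away (f * p))[X] _).comp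
      (C.comp ((algebraMap D _).comp ψ)) := sp_inj (by
    rw [← sp_comp, ← h3, reassoc_of% hρ, hΓ, sp_comp, sp_comp]
    congr 1
    ext1 a
    simp [show ∀ a, m (algebraMap D _ a) = _ from RingHom.congr_fun hm])
  let := φ.toAlgebra
  obtain ⟨s, hs⟩ := (show Algebra.FiniteType k B from h4).out
  choose e G hG using fun b : B => IsLocalization.Away.surj q (ρ b)
  have hn : ∀ a : D, a ≠ 0 → IsUnit (r a) := fun a h => ((map_ne_zero_iff r hr).2 h).isUnit
  let μ := IsLocalization.Away.lift (S := Localization.Away (f * p)) _ (hn _ (mul_ne_zero f0 p0))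
  have hμ : μ.comp (algebraMap D _) = r := IsLocalization.Away.lift_comp _ _
  have key := exists_scale r μ p (aw r f) (fun a => ⟨0, a, by simp⟩) fun c => by
    obtain ⟨n, hn⟩ : μ c ∈ aw r (f * p) := range_away (hn _ (mul_ne_zero f0 p0)) ▸ ⟨c, rfl⟩
    exact ⟨n, n, by rwa [map_mul, mul_pow, mul_assoc] at hn⟩
  obtain ⟨M₀, hM₀⟩ := key q
  choose M hM using fun b => key (G b)
  refine ⟨max M₀ (s.sup M), fun M' hM' l Q _ hQ hQ' θ e1 e2 => ?_⟩
  have a1 : aw r f ≤ locS r Q := by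
    rintro ω ⟨n, a, ha⟩
    exact ⟨a, f ^ n, fun h => hQ (Ideal.IsPrime.mem_of_pow_mem ‹_› n h), by
      rw [ha, map_pow, mul_comm]⟩
  have a2 : Un (locS r Q) (eval₂ μ (r (l * p ^ M')) q) := by
    obtain ⟨w, hw, e⟩ := hM₀ M' (le_of_max_le_left hM') l
    rw [e, hq, map_one]
    exact (loc_locS hr).add_un Un.one (mul_mem (map_mem_locS _) (a1 hw)) fun h =>
      (un_locS hr).1 (h.left (map_mem_locS _) (a1 hw)) hQ'
  obtain ⟨θ₂, hθ⟩ := exists_away q (eval₂RingHom μ (r (l * p ^ M'))) a2.2.1.isUnit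
  have a3 : ∀ a, θ₂ (algebraMap _ _ a) = eval₂ μ (r (l * p ^ M')) a := RingHom.congr_fun hθ
  have a4 : ∀ b, θ₂ (ρ b) ∈ locS r Q := fun b => by
    have hb : b ∈ Algebra.adjoin k (s : Set B) := hs ▸ trivial
    induction hb using Algebra.adjoin_induction with
    | mem b hb =>
      obtain ⟨w, hw, e3⟩ := hM b M' ((Finset.le_sup hb).trans (le_of_max_le_right hM')) l
      refine (a2.pow (e b)).mem_of_mul ?_
      rw [← a3, ← map_pow, ← map_mul, mul_comm _ (ρ b), hG, a3, e3]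
      refine add_mem (a1 ?_) (mul_mem (map_mem_locS _) (a1 hw))
      have h10 := congrArg ev (hG b)
      rw [map_mul, map_pow, show ∀ a, ev (algebraMap _ _ a) = a.coeff 0 from RingHom.congr_fun hev,
        show ∀ a, ev (algebraMap _ _ a) = a.coeff 0 from RingHom.congr_fun hev, hq, one_pow,
        mul_one, show ev (ρ b) = m' (ρ₀ b) from RingHom.congr_fun h8 b] at h10
      rw [← h10, ← range_away (hn f f0)]
      refine ⟨ρ₀ b, RingHom.congr_fun (away_ext (ψ' := μ.comp m') ?_) _⟩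
      rw [IsLocalization.Away.lift_comp, RingHom.comp_assoc, hm', hμ]
    | algebraMap c =>
      rw [show ρ (algebraMap k B c) = _ from RingHom.congr_fun h9 c]
      simp only [RingHom.comp_apply, a3, eval₂_C]
      rw [show μ _ = r (ψ c) from RingHom.congr_fun hμ _]
      exact map_mem_locS _
    | add x y _ _ h h' => rw [map_add, map_add]; exact add_mem h h'
    | mul x y _ _ h h' => rw [map_mul, map_mul]; exact mul_mem h h'
  refine ⟨sp ((θ₂.comp ρ).codRestrict _ a4) ≫ j, ?_⟩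
  rw [sp_comp_assoc, show (locS r Q).subtype.comp _ = θ₂.comp ρ from rfl, ← sp_comp_assoc, hρ,
    sp_comp_assoc, sp_comp_assoc, hθ]
  congr 2
  refine ringHom_ext' (away_ext ?_) (by simp [e2])
  rw [RingHom.comp_assoc _ _ θ, e1]
  ext1 a
  simpa [show ∀ a, m (algebraMap D _ a) = _ from RingHom.congr_fun hm] using
    RingHom.congr_fun hμ a

theorem contract [Y.IsSeparated] [S.IsSeparated] [IsDomain D] (π : Y ⟶ S) (f : S ⟶ Spec (.of k))
    [LocallyOfFiniteType (π ≫ f)] {ψ : k →+* D} {p : D} (p0 : p ≠ 0) {Φ : Spec (.of D) ⟶ Y}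
    (hΦ : Φ ≫ π ≫ f = sp ψ) {Γ : Spec (.of (Localization.Away p)[X]) ⟶ Y}
    (hΓ : Γ ≫ π = sp (C.comp (algebraMap D _)) ≫ Φ ≫ π)
    (h0 : sp constantCoeff ≫ Γ = sp (algebraMap D _) ≫ Φ) :
    ∃ M, ∀ l : D, ∃ Φ' : Spec (.of D) ⟶ Y, Φ' ≫ π = Φ ≫ π ∧ sp (algebraMap D _) ≫ Φ' =
      sp (evalRingHom (algebraMap D _ (l * p ^ M))) ≫ Γ := by
  classical
  have := locallyOfFiniteType_of_comp π f
  let L := FractionRing D
  have hr := IsFractionRing.injective D L
  choose t ht M hM using contract_local (π ≫ f) hr (ψ := ψ) p0 (by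
    rw [reassoc_of% hΓ, hΦ, sp_comp, RingHom.comp_assoc]) h0
  obtain ⟨s, hs⟩ := isCompact_univ.elim_finite_subcover
    (fun P => (PrimeSpectrum.basicOpen (t P) : Set (PrimeSpectrum D)))
    (fun P => (PrimeSpectrum.basicOpen (t P)).2) fun P _ => Set.mem_iUnion.2 ⟨P, ht P⟩
  refine ⟨s.sup M, fun l => ?_⟩
  have hu : IsUnit (algebraMap D L p) := ((map_ne_zero_iff _ hr).2 p0).isUnit
  let ν := IsLocalization.Away.lift (S := Localization.Away p) p hu
  have hν : ν.comp (algebraMap D _) = algebraMap D L := IsLocalization.Away.lift_comp _ _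
  let ev := evalRingHom (algebraMap D (Localization.Away p) (l * p ^ s.sup M))
  have e1 : ev.comp (C.comp (algebraMap D _)) = algebraMap D _ := by ext1 a; simp [ev]
  obtain ⟨Φ', h1, h2⟩ := exists_glue hr (Φ ≫ π) π (sp (ν.comp ev) ≫ Γ) (by
      rw [Category.assoc, hΓ, sp_comp_assoc, RingHom.comp_assoc, e1, hν]) fun Q _ => by
    by_cases hQ : p ∈ Q
    · obtain ⟨P, hP, h⟩ := Set.mem_iUnion₂.1 (hs (Set.mem_univ (⟨Q, ‹_›⟩ : PrimeSpectrum D)))
      exact hM P _ (Finset.le_sup hP) l Q h hQ _ (by rw [RingHom.comp_assoc, e1, hν])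
        (by simpa only [ev, RingHom.comp_apply, coe_evalRingHom, eval_X] using
          RingHom.congr_fun hν _)
    · obtain ⟨χ, hχ⟩ := exists_away p ((algebraMap D L).codRestrict (locS _ Q) map_mem_locS)
        (un_iff_isUnit.1 ((un_locS hr).2 hQ))
      refine ⟨sp (χ.comp ev) ≫ Γ, ?_⟩
      rw [sp_comp_assoc, ← RingHom.comp_assoc, show (locS _ Q).subtype.comp χ = ν from
        away_ext (by rw [RingHom.comp_assoc, hχ, hν]; rfl)]
  refine ⟨Φ', h1, ext_sp (away_injective hr hu) ?_⟩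
  rw [sp_comp_assoc, sp_comp_assoc, hν, h2]

end Pool.Agent.MP_e8e0b6_ag.E

end MrgPart0

-- ======== part 1: formerly Pool.Agent.MP_e8e0b6_ag.E.Move
section MrgPart1

/-!
Moving a section along the lines of an affine retract.
-/

open AlgebraicGeometry CategoryTheory Limits IsLocalRing Polynomial AffineSpace

namespace Pool.Agent.MP_e8e0b6_ag.E

open Z

variable {k A T T' : Type} [Field k] [CommRing A] [CommRing T] [CommRing T'] {Y S : Scheme.{0}}
  {π : Y ⟶ S} (c : AffineRetract π)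

/-- `q` is the image of the point with base point `s` and coordinates `a`. -/
def Pt (s : Spec (.of T) ⟶ S) (a : Fin c.N → T) (q : Spec (.of T) ⟶ Y) : Prop :=
  ∃ s' : Spec (.of T) ⟶ c.V, s' ≫ c.V.ι = s ∧ homOfVector s' (fun l => fn T (a l)) ≫ c.r = q

/-- `a` are the coordinates of the point `q`. -/
def Co (q : Spec (.of T) ⟶ Y) (a : Fin c.N → T) : Prop :=
  ∃ q' : Spec (.of T) ⟶ c.W, q' ≫ c.W.ι = q ∧ ∀ l, (q' ≫ c.i).appTop (coord _ l) = fn T (a l)

variable {c} {s : Spec (.of T) ⟶ S} {a a' : Fin c.N → T} {q q' : Spec (.of T) ⟶ Y}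

theorem Pt.over (h : Pt c s a q) : q ≫ π = s := by
  obtain ⟨s, rfl, rfl⟩ := h
  rw [Category.assoc, c.r_over, homOfVector_over_assoc]

theorem Pt.map (h : Pt c s a q) (ρ : T →+* T') : Pt c (sp ρ ≫ s) (fun l => ρ (a l)) (sp ρ ≫ q) := by
  obtain ⟨s, rfl, rfl⟩ := h
  refine ⟨sp ρ ≫ s, Category.assoc _ _ _, ?_⟩
  rw [← Category.assoc]
  congr 1
  refine hom_ext (by simp) fun l => ?_
  rw [appTop_comp, homOfVector_appTop_coord, homOfVector_appTop_coord]
  exact (sp_app ρ _).symm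

theorem Pt.unique (h : Pt c s a q) (h' : Pt c s a q') : q = q' := by
  obtain ⟨s, rfl, rfl⟩ := h
  obtain ⟨s', e, rfl⟩ := h'
  rw [(cancel_mono _).1 e]

theorem exists_Pt (h : ∀ w, s w ∈ c.V) (a : Fin c.N → T) : ∃ q, Pt c s a q :=
  let ⟨s', e⟩ := exists_toOpen _ s h; ⟨_, s', e, rfl⟩

theorem Pt.mem (h : Pt c s a q) (w : Spec (.of T)) : s w ∈ c.V := by
  obtain ⟨s, rfl, -⟩ := h
  exact (s w).2

theorem exists_Co (h : ∀ w, q w ∈ c.W) : ∃ a, Co c q a := by
  obtain ⟨q, rfl⟩ := exists_toOpen _ q h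
  choose a ha using fun l => fn_bij.2 ((q ≫ c.i).appTop (coord _ l))
  exact ⟨a, q, rfl, fun l => (ha l).symm⟩

theorem Co.map (h : Co c q a) (ρ : T →+* T') : Co c (sp ρ ≫ q) fun l => ρ (a l) := by
  obtain ⟨q, rfl, h⟩ := h
  refine ⟨sp ρ ≫ q, Category.assoc _ _ _, fun l => ?_⟩
  rw [Category.assoc, appTop_comp, h]
  exact sp_app ρ _

theorem Co.eq (h : Co c q a) (h' : Co c q a') : a = a' := by
  obtain ⟨q, rfl, h⟩ := h
  obtain ⟨q', e, h'⟩ := h'
  obtain rfl := (cancel_mono _).1 e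
  exact _root_.funext fun l => fn_bij.1 ((h l).symm.trans (h' l))

theorem Co.pt (h : Co c q a) : Pt c (q ≫ π) a q := by
  obtain ⟨q, rfl, h⟩ := h
  refine ⟨q ≫ c.i ≫ 𝔸(Fin c.N; c.V) ↘ c.V, ?_, ?_⟩
  · rw [Category.assoc, Category.assoc, ← c.r_over, reassoc_of% c.i_r, Category.assoc]
  · rw [← c.i_r, ← Category.assoc q c.i c.r]
    congr 1
    exact hom_ext (by simp) fun l => by rw [homOfVector_appTop_coord, h]

theorem mem_of_field {U : Y.Opens} {z : Spec (.of k) ⟶ Y} (h : z (closedPoint k) ∈ U)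
    (w : Spec (.of k)) : z w ∈ U := by
  rwa [Subsingleton.elim w (closedPoint k)]

theorem exists_shrink [IsDomain A] (x : A →+* k) {g : Spec (.of A) ⟶ Y} {U : Y.Opens}
    (h : (sp x ≫ g) (closedPoint k) ∈ U) : ∃ t, x t ≠ 0 ∧
      ∀ w : PrimeSpectrum A, t ∉ w.asIdeal → g w ∈ U := by
  obtain ⟨t, h1, h2⟩ := exists_basic (σ := g) (U := U) (sp x (closedPoint k)) h
  exact ⟨t, fun e => h1 (by change x t ∈ maximalIdeal k; rw [e]; exact zero_mem _), h2⟩

theorem move [Y.IsSeparated] [S.IsSeparated] [IsDomain A] (f : S ⟶ Spec (.of k))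
    [LocallyOfFiniteType (π ≫ f)] (c : AffineRetract π) (x : A →+* k) {Φ : Spec (.of A[X]) ⟶ Y}
    (h : (sp (x.comp constantCoeff) ≫ Φ) (closedPoint k) ∈ c.W) (b : Fin c.N → A[X]) :
    ∃ (A' : Type) (_ : CommRing A') (_ : IsDomain A') (ε : A →+* A') (_ : IsOpenImmersion (sp ε))
      (x' : A' →+* k) (Φ' : Spec (.of A'[X]) ⟶ Y), x'.comp ε = x ∧
      Φ' ≫ π = sp (mapRingHom ε) ≫ Φ ≫ π ∧ ∀ (T : Type) [CommRing T] (ρ : A'[X] →+* T),
        ρ X ^ 2 = 0 → Pt c (sp ρ ≫ Φ' ≫ π) (fun l => ρ ((b l).map ε)) (sp ρ ≫ Φ') := by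
  obtain ⟨p, h1, h2⟩ := exists_shrink _ h
  obtain ⟨A', _, _, ε, _, x', e1, e2, e3⟩ := exists_loc x (t := p.coeff 0) h1
  let p' := p.map ε
  have h3 : IsUnit (p'.coeff 0) := by rwa [coeff_map]
  have p0 : p' ≠ 0 := fun e => h3.ne_zero (by rw [e, coeff_zero])
  let α := algebraMap A'[X] (Localization.Away p')
  have hα : IsUnit (α p') := IsLocalization.Away.algebraMap_isUnit p'
  obtain ⟨a, ha⟩ := exists_Co (mem_of_unit (ρ := α.comp (mapRingHom ε)) h2 hα)
  rw [← sp_comp_assoc] at ha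
  have h4 := ha.pt
  obtain ⟨Γ, hΓ⟩ := exists_Pt (h4.map (C : _ →+* (Localization.Away p')[X])).mem
    fun l => C (a l) + X * C (α ((b l).map ε) - a l)
  obtain ⟨ψ, hψ⟩ := sp_surj ((sp (mapRingHom ε) ≫ Φ) ≫ π ≫ f)
  have h5 : ∀ {T : Type} [CommRing T] (θ : (Localization.Away p')[X] →+* T),
      Pt c (sp (θ.comp C) ≫ (sp α ≫ sp (mapRingHom ε) ≫ Φ) ≫ π)
        (fun l => θ (C (a l) + X * C (α ((b l).map ε) - a l))) (sp θ ≫ Γ) := fun θ => by
    have := hΓ.map θ
    rwa [sp_comp_assoc] at this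
  obtain ⟨M, hM⟩ := contract π f p0 hψ.symm (Γ := Γ) (by
      rw [hΓ.over, ← sp_comp_assoc α]; simp only [Category.assoc]) (by
    refine (h5 constantCoeff).unique ?_
    rw [show constantCoeff.comp C = RingHom.id _ from RingHom.ext (by simp), sp_id]
    simpa using h4)
  obtain ⟨l, l', e⟩ : IsCoprime (p' ^ M) (X ^ 2) := by
    refine IsCoprime.pow ?_
    obtain ⟨u, hu⟩ := h3.exists_left_inv
    refine ⟨C u, -(C u * p'.divX), ?_⟩
    have := p'.X_mul_divX_add
    rw [← C_1, ← hu, C_mul]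
    linear_combination (-C u) * this
  obtain ⟨Φ', h6, h7⟩ := hM l
  refine ⟨A', _, inferInstance, ε, inferInstance, x', Φ', e1, h6.trans (Category.assoc _ _ _),
    fun T _ ρ hρ => ?_⟩
  have h8 : ρ (l * p' ^ M) = 1 := by
    have := congrArg ρ e
    rwa [map_add, map_mul ρ l', map_pow ρ X, hρ, mul_zero, add_zero, map_one] at this
  obtain ⟨χ, rfl⟩ := exists_away p' ρ (by
    have : IsUnit (ρ (C (p'.coeff 0)) + ρ X * ρ p'.divX) :=
      IsNilpotent.isUnit_add_left_of_commute ((Commute.all _ _).isNilpotent_mul_right ⟨2, hρ⟩)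
        ((h3.map C).map ρ) (Commute.all _ _)
    rwa [← map_mul, ← map_add, add_comm, X_mul_divX_add] at this)
  have h9 := h5 (χ.comp (evalRingHom (α (l * p' ^ M))))
  rw [← sp_comp_assoc (evalRingHom _) χ, ← h7, sp_comp_assoc _ χ] at h9
  convert h9 using 1
  · rw [h6, RingHom.comp_assoc, show (evalRingHom (α (l * p' ^ M))).comp C = RingHom.id _ from
      RingHom.ext (by simp), RingHom.comp_id, ← sp_comp_assoc]
    simp only [Category.assoc]
  · funext i
    have : χ (α (l * p' ^ M)) = 1 := h8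
    simp only [RingHom.comp_apply, coe_evalRingHom, eval_mul, eval_C, eval_X, map_add,
      map_mul χ, this, map_sub]
    simp [α]

end Pool.Agent.MP_e8e0b6_ag.E

end MrgPart1

-- marker of a merged file
example : 731051 + 246484 = 731051 + 246484 := rfl
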