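import Pool.Agent.MP_e8e0b6_ag.E.Move

/-!
Fibrations that are locally retracts of affine space and receive a map from a fibre bundle.
-/

open AlgebraicGeometry CategoryTheory Limits IsLocalRing Polynomial TrivSqZeroExt

namespace Pool.Agent.MP_e8e0b6_ag.E

open Z

variable {k A : Type} [Field k] [IsAlgClosed k] [CommRing A] {Y Y₀ S F : Scheme.{0}}
  {π : Y ⟶ S} {f : S ⟶ Spec (.of k)}

theorem exists_kpt (q : Y ⟶ Spec (.of k)) [LocallyOfFiniteType q] (U : Y.Opens) (y : Y)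
    (h : y ∈ U) : ∃ z : Spec (.of k) ⟶ Y, z ≫ q = 𝟙 _ ∧ z (closedPoint k) ∈ U := by
  obtain ⟨B, _, j, _, φ, ⟨p, -⟩, h2, h3, h4⟩ := exists_piece q y U h RingHom.FiniteType
    fun A _ j _ φ h => RingHom.locally_of RingHom.finiteType_respectsIso _
      ((HasRingHomProperty.Spec_iff (P := @LocallyOfFiniteType) (φ := CommRingCat.ofHom φ)).1
        (show LocallyOfFiniteType (sp φ) from h ▸ inferInstance))
  let := φ.toAlgebra
  have : Algebra.FiniteType k B := h4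
  obtain ⟨e, -⟩ := exists_point (k := k) p.asIdeal p.2.ne_top
  exact ⟨sp (e : B →+* k) ≫ j, by
    rw [Category.assoc, h3, sp_comp, show (e : B →+* k).comp φ = _ from e.comp_algebraMap]
    exact sp_id, h2 ⟨_, rfl⟩⟩

theorem exists_fibre_pt [LocallyOfFiniteType π] (s : Spec (.of k) ⟶ S) (U : Y.Opens) (y : Y)
    (h : y ∈ U) (e : π y = s (closedPoint k)) :
    ∃ z : Spec (.of k) ⟶ Y, z ≫ π = s ∧ z (closedPoint k) ∈ U := by
  obtain ⟨y, rfl, -⟩ := Scheme.exists_preimage_of_isPullback (IsPullback.of_hasPullback π s) y _ e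
  obtain ⟨z, h1, h2⟩ := exists_kpt (pullback.snd π s) (pullback.fst π s ⁻¹ᵁ U) y h
  exact ⟨z ≫ pullback.fst π s, by rw [Category.assoc, pullback.condition, reassoc_of% h1], h2⟩

omit [IsAlgClosed k] in
theorem isClosed_pt (f : S ⟶ Spec (.of k)) [IsSeparated f] {s : Spec (.of k) ⟶ S}
    (h : s ≫ f = 𝟙 _) : IsClosed {s (closedPoint k)} := by
  have : IsClosedImmersion (s ≫ f) := h ▸ inferInstance
  have := IsClosedImmersion.of_comp s f
  convert s.isClosedEmbedding.isClosed_range using 1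
  ext y
  exact ⟨fun e => ⟨_, e.symm⟩, fun ⟨w, e⟩ => by rw [← e, Subsingleton.elim w (closedPoint k)]; rfl⟩

theorem of_connected [LocallyOfFiniteType π] (hr : ∀ y, ∃ c : AffineRetract π, y ∈ c.W)
    {s : Spec (.of k) ⟶ S} (hc : _root_.IsPreconnected (π ⁻¹' {s (closedPoint k)}))
    (P : (Spec (.of k) ⟶ Y) → Prop) (hP : ∀ (c : AffineRetract π) z z', z (closedPoint k) ∈ c.W →
      z' (closedPoint k) ∈ c.W → z' ≫ π = s → P z → P z') {z z' : Spec (.of k) ⟶ Y}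
    (hz : z ≫ π = s) (hz' : z' ≫ π = s) (h : P z) : P z' := by
  by_contra h'
  let U : Prop → Set Y := fun b => ⋃ c : {c : AffineRetract π // ∃ z : Spec (.of k) ⟶ Y,
    z (closedPoint k) ∈ c.W ∧ z ≫ π = s ∧ (P z ↔ b)}, c.1.W
  have hU : ∀ b, IsOpen (U b) := fun b => isOpen_iUnion fun c => c.1.W.2
  have h1 : ∀ (z : Spec (.of k) ⟶ Y) b, z ≫ π = s → (P z ↔ b) →
      (π ⁻¹' {s (closedPoint k)} ∩ U b).Nonempty := fun z b e hb => by
      obtain ⟨c, hc⟩ := hr (z (closedPoint k))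
      exact ⟨z (closedPoint k), by rw [← e]; rfl, Set.mem_iUnion.2 ⟨⟨c, z, hc, e, hb⟩, hc⟩⟩
  obtain ⟨y, e, h2, h3⟩ := hc _ _ (hU True) (hU False) (fun y e => by
      obtain ⟨c, hc⟩ := hr y
      obtain ⟨w, h2, h3⟩ := exists_fibre_pt s c.W y hc e
      by_cases h4 : P w
      · exact Or.inl (Set.mem_iUnion.2 ⟨⟨c, w, h3, h2, iff_true_intro h4⟩, hc⟩)
      · exact Or.inr (Set.mem_iUnion.2 ⟨⟨c, w, h3, h2, iff_false_intro h4⟩, hc⟩))
    (h1 z _ hz (iff_true_intro h)) (h1 z' _ hz' (iff_false_intro h'))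
  obtain ⟨⟨c, u, h4, h13, h5⟩, h11⟩ := Set.mem_iUnion.1 h2
  obtain ⟨⟨c', u', h6, h7, h8⟩, h12⟩ := Set.mem_iUnion.1 h3
  obtain ⟨w, h9, h10⟩ := exists_fibre_pt s (c.W ⊓ c'.W) y ⟨h11, h12⟩ e
  exact h8.1 (hP c' _ _ h10.2 h6 h7 (hP c _ _ h4 h10.1 h9 (h5.2 trivial)))

variable [CharZero k] {G : LinGroup k} {φ : F ⟶ Spec (.of k)} {a : G.Action φ} {π₀ : Y₀ ⟶ S}

omit [IsAlgClosed k] [CharZero k] in
theorem of_bundle (b : FibreBundle a f π₀) (P : MorphismProperty Scheme.{0})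
    [IsZariskiLocalAtTarget P] [P.IsStableUnderBaseChange] (h : P φ) : P π₀ :=
  (IsZariskiLocalAtTarget.iff_of_iSup_eq_top b.U (eq_top_iff.2 fun s _ =>
    TopologicalSpace.Opens.mem_iSup.2 (b.cover s))).2 fun i => P.of_isPullback (b.isPullback i) h

theorem exists_lift [IsSeparated f] [IsSeparated φ] [LocallyOfFiniteType φ] [Nonempty F]
    (b : FibreBundle a f π₀) [IsDomain A] [Algebra k A] {d : ℕ}
    (z : MvPolynomial (Fin d) k →ₐ[k] A) (hz : z.toRingHom.Etale) (x : A →ₐ[k] k)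
    {σ : Spec (.of A[X]) ⟶ S} (e4 : σ ≫ f = sp (algebraMap k A[X])) :
    ∃ (A' : Type) (_ : CommRing A') (_ : IsDomain A') (ε : A →+* A') (_ : IsOpenImmersion (sp ε))
      (x' : A' →+* k) (Φ : Spec (.of A'[X]) ⟶ Y₀), x'.comp ε = x ∧
      Φ ≫ π₀ = sp (mapRingHom ε) ≫ σ := by
  have : IsSeparated π₀ := of_bundle b @IsSeparated ‹_›
  have : LocallyOfFiniteType π₀ := of_bundle b @LocallyOfFiniteType ‹_›
  have := isSeparated_of (π₀ ≫ f)
  have := isSeparated_of f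
  obtain ⟨y, hy, -⟩ := exists_kpt φ ⊤ (Classical.arbitrary F) trivial
  obtain ⟨ι, _, c, p, hp, p0, hc⟩ := exists_cover b σ
  let L := FractionRing A[X]
  have hr := IsFractionRing.injective A[X] L
  have : ∀ i i', ∃ g : Mat G.n L, Coc b (c i) (c i') (sp (algebraMap A[X] L) ≫ σ) g ∧
      ∀ m m', g m m' ∈ aw (algebraMap A[X] L) (p i * p i') := fun i i' => by
    have hu := ((map_ne_zero_iff _ hr).2 (mul_ne_zero (p0 i) (p0 i'))).isUnit
    have h7 := IsLocalization.Away.algebraMap_isUnit (S := Localization.Away (p i * p i'))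
      (p i * p i')
    rw [map_mul] at h7
    obtain ⟨g, hg⟩ := exists_coc (mem_of_unit (hc i) (isUnit_of_mul_isUnit_left h7))
      (mem_of_unit (hc i') (isUnit_of_mul_isUnit_right h7))
    have := hg.map (IsLocalization.Away.lift _ hu)
    rw [sp_comp_assoc, IsLocalization.Away.lift_comp] at this
    exact ⟨_, this, fun m m' => range_away hu ▸ ⟨_, rfl⟩⟩
  choose g hg hg' using this
  obtain ⟨t, ht, γ, μ, hμ, hγ, h7⟩ := trivialise G z hz x _ hr p hp p0 g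
    (fun i i' => (hg i i').solves (by rw [Category.assoc, e4, sp_comp]))
    (fun _ _ _ => (hg _ _).mul (hg _ _) (hg _ _)) hg'
  obtain ⟨A₁, _, _, ε, _, x₁, f1, f2, f3⟩ := exists_loc (x : A →+* k) ht
  obtain ⟨Φ, h8, -⟩ := Z.exists_glued e4 hp p0 hc hμ hγ hg h7 (mapRingHom ε) (map_injective _ f2)
    (by rw [coe_mapRingHom, map_C]; exact f3.map C) (sp _ ≫ y)
    (by rw [Category.assoc, hy, Category.comp_id])
  exact ⟨A₁, _, inferInstance, ε, inferInstance, x₁, Φ, f1, h8⟩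

theorem elliptic_of_retracts (hY : SmoothVariety (π ≫ f))
    (hc : ∀ s, IsClosed {s} → _root_.IsPreconnected (π ⁻¹' {s}))
    (hr : ∀ y, ∃ c : AffineRetract π, y ∈ c.W)
    [IsSeparated φ] [LocallyOfFiniteType φ] [Nonempty F] (u : Y₀ ⟶ Y)
    (b : FibreBundle a f (u ≫ π)) (eS : Elliptic f) : Elliptic (π ≫ f) := by
  have := hY.separated
  have := hY.integral
  have := hY.smooth
  have := hY.finiteType
  have := eS.1.separated
  have := isSeparated_of (π ≫ f)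
  have := isSeparated_of f
  have := locallyOfFiniteType_of_comp π f
  refine elliptic_of_germs hY fun v hv => ?_
  obtain ⟨U, hU, hL⟩ := exists_line eS (v ≫ π) (by rwa [Category.assoc])
  obtain ⟨c, hv'⟩ := hr (v (closedPoint _))
  obtain ⟨A, _, j, _, ψ, h1, h2, h3, h4⟩ := exists_piece (π ≫ f) (v (closedPoint _))
    (π ⁻¹ᵁ U ⊓ c.W) ⟨hU, hv'⟩
    RingHom.IsStandardSmooth fun A _ j _ φ h => (smooth_of_chart j h).locally_isStandardSmooth
  obtain ⟨θ, rfl⟩ := exists_factor v j h1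
  have := θ.domain_nontrivial
  have := isDomain_chart j
  let := ψ.toAlgebra
  have h5 : θ.comp ψ = algebraMap k _ := sp_inj (by rw [← sp_comp, ← h3, ← Category.assoc, hv]; rfl)
  let x : A →ₐ[k] k := ⟨(fstR k).comp θ, fun a => congrArg fst (DFunLike.congr_fun h5 a)⟩
  have h6 : epsPoint k ≫ sp θ = sp (x : A →+* k) := sp_comp _ _
  obtain ⟨σ, e1, e2, e3⟩ := hL A (j ≫ π) x (by rintro _ ⟨p, rfl⟩; exact (h2 ⟨p, rfl⟩).1)
    (by rw [← h6]; simp)
  have e4 : σ ≫ f = sp (algebraMap k A[X]) := by rw [e1, Category.assoc, h3, sp_comp]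
  obtain ⟨d, z, hz, hz'⟩ := h4.exists_etale_mvPolynomial
  let P : (Spec (.of k) ⟶ Y) → Prop := fun w => ∃ (A' : Type) (_ : CommRing A') (_ : IsDomain A')
    (ε : A →+* A') (_ : IsOpenImmersion (sp ε)) (x' : A' →+* k) (Φ : Spec (.of A'[X]) ⟶ Y),
    x'.comp ε = x ∧ Φ ≫ π = sp (mapRingHom ε) ≫ σ ∧ sp (x'.comp constantCoeff) ≫ Φ = w
  have e5 : ∀ {A' : Type} [CommRing A'] (ε : A →+* A'),
      sp constantCoeff ≫ sp (mapRingHom ε) ≫ σ = (sp ε ≫ j) ≫ π := fun ε => by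
    rw [Category.assoc, ← e2, sp_comp_assoc, sp_comp_assoc]
    congr 2
    ext <;> simp
  have e6 : ∀ {A' A'' : Type} [CommRing A'] [CommRing A''] (ε : A →+* A') (ε' : A' →+* A''),
      sp (mapRingHom ε') ≫ sp (mapRingHom ε) ≫ σ = sp (mapRingHom (ε'.comp ε)) ≫ σ :=
    fun ε ε' => by rw [sp_comp_assoc, mapRingHom_comp]
  have e7 : ∀ {A' A'' : Type} [CommRing A'] [CommRing A''] (ε : A →+* A') (ε' : A' →+* A'')
      [IsOpenImmersion (sp ε)] [IsOpenImmersion (sp ε')], IsOpenImmersion (sp (ε'.comp ε)) :=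
    fun ε ε' _ _ => sp_comp ε ε' ▸ inferInstance
  obtain ⟨A₁, _, _, ε₁, _, x₁, Φ₁, f1, f2, f3⟩ : P (sp (x : A →+* k) ≫ j) := by
    obtain ⟨A₁, _, _, ε₁, _, x₁, Φ₁, f1, f2⟩ := exists_lift b ⟨z, DFunLike.congr_fun hz⟩ hz' x e4
    refine of_connected hr (hc _ (isClosed_pt f ?_)) P (s := (sp (x : A →+* k) ≫ j) ≫ π) ?_
      (z := sp (x₁.comp constantCoeff) ≫ Φ₁ ≫ u) ?_ rfl
      ⟨A₁, _, ‹_›, ε₁, ‹_›, x₁, Φ₁ ≫ u, f1, (Category.assoc _ _ _).trans f2, rfl⟩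
    · rw [Category.assoc, Category.assoc, h3, sp_comp,
        show (x : A →+* k).comp ψ = _ from x.comp_algebraMap]
      exact sp_id
    · rintro c _ w g1 g2 g3 ⟨A₁, _, _, ε₁, _, x₁, Φ₁, f1, f2, rfl⟩
      obtain ⟨a, ha⟩ := exists_Co (mem_of_field g2)
      obtain ⟨A₂, _, _, ε₂, _, x₂, Φ₂, f3, f4, f5⟩ := move f c x₁ g1 fun l => C (ε₁ (ψ (a l)))
      have f6 : x₂.comp (ε₂.comp ε₁) = x := by rw [← RingHom.comp_assoc, f3, f1]
      rw [f2, e6] at f4
      refine ⟨A₂, _, ‹_›, _, e7 ε₁ ε₂, x₂, Φ₂, f6, f4, (f5 k _ (by simp)).unique ?_⟩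
      convert ha.pt using 1
      · rw [f4, ← sp_comp_assoc, e5, g3, ← f6]
        simp only [Category.assoc, sp_comp_assoc]
      · funext l
        have : x₂ (ε₂ (ε₁ (ψ (a l)))) = a l := (RingHom.congr_fun f6 _).trans (x.commutes (a l))
        simpa using this
    · rw [Category.assoc, Category.assoc, f2, ← sp_comp_assoc, e5, ← f1, ← sp_comp_assoc]
      simp only [Category.assoc]
  obtain ⟨a₀, g1⟩ := exists_Co (q := j) fun w => (h2 ⟨w, rfl⟩).2
  obtain ⟨A₂, _, _, ε₂, _, x₂, Φ₂, f4, f5, f6⟩ := move f c x₁ (Φ := Φ₁)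
    (by rw [f3]; exact (h2 ⟨_, rfl⟩).2)
    fun l => C (ε₁ (a₀ l)) + C (ε₁ (ψ (θ (a₀ l)).snd)) * X
  have f7 : x₂.comp (ε₂.comp ε₁) = x := by rw [← RingHom.comp_assoc, f4, f1]
  have f8 : ∀ a, x₂ (ε₂ (ε₁ a)) = x a := RingHom.congr_fun f7
  rw [f2, e6] at f5
  have := e7 ε₁ ε₂
  refine ⟨A₂, _, sp (ε₂.comp ε₁) ≫ j, inferInstance, Φ₂, x₂, ?_, ?_, ?_⟩
  · rw [reassoc_of% f5, e1]
    simp only [Category.assoc, sp_comp_assoc, mapRingHom_comp_C]
  · refine (f6 _ _ (by simp)).unique ?_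
    convert (g1.map (ε₂.comp ε₁)).pt using 1
    · rw [f5, e5]
    · funext l
      simp
  · refine (f6 _ _ (by simp [pow_two])).unique ?_
    convert (g1.map θ).pt using 1
    · rw [f5, ← e3, sp_comp_assoc]
      congr 2
      rw [← f7]
      ext <;> simp
    · funext l
      ext <;> simp [f8, algebraMap_eq_inl, show ∀ a, x (ψ a) = a from x.commutes]
      rfl

end Pool.Agent.MP_e8e0b6_ag.E
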